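import Mathlib

/-!
# A larger sieve for objects with several residue classes, weighted by the number of the classes
-/

set_option autoImplicit false

namespace Pool.Agent.H446.AP2

open Finset

lemma cs_one {Ω Γ : Type*} [DecidableEq Γ] (T : Finset Ω) (G : Finset Γ) (Z : Ω → Finset Γ)
    (hG : ∀ P ∈ T, Z P ⊆ G) :
    (∑ P ∈ T, ((Z P).card : ℝ)) ^ 2 ≤ G.card * ∑ P ∈ T, ∑ Q ∈ T, ((Z P ∩ Z Q).card : ℝ) := by
  have h1 : ∑ g ∈ G, ∑ P ∈ T, (if g ∈ Z P then (1 : ℝ) else 0) = ∑ P ∈ T, ((Z P).card : ℝ) := by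
    rw [Finset.sum_comm]
    refine Finset.sum_congr rfl fun P hP => ?_
    rw [← Finset.sum_filter, Finset.sum_const, nsmul_eq_mul, mul_one]
    have h2 : G.filter (fun g => g ∈ Z P) = Z P := by
      ext g
      simp only [mem_filter, and_iff_right_iff_imp]
      exact fun h => hG P hP h
    rw [h2]
  rw [← h1]
  refine (sq_sum_le_card_mul_sum_sq).trans ?_
  refine mul_le_mul_of_nonneg_left (le_of_eq ?_) (Nat.cast_nonneg _)
  have h3 : ∀ g ∈ G, (∑ P ∈ T, (if g ∈ Z P then (1 : ℝ) else 0)) ^ 2 =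
      ∑ P ∈ T, ∑ Q ∈ T, (if g ∈ Z P ∩ Z Q then (1 : ℝ) else 0) := by
    intro g _
    rw [sq, Finset.sum_mul_sum]
    refine Finset.sum_congr rfl fun P _ => Finset.sum_congr rfl fun Q _ => ?_
    by_cases h4 : g ∈ Z P <;> by_cases h5 : g ∈ Z Q <;> simp [h4, h5]
  rw [Finset.sum_congr rfl h3, Finset.sum_comm]
  refine Finset.sum_congr rfl fun P hP => ?_
  rw [Finset.sum_comm]
  refine Finset.sum_congr rfl fun Q _ => ?_
  rw [← Finset.sum_filter, Finset.sum_const, nsmul_eq_mul, mul_one]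
  have h2 : G.filter (fun g => g ∈ Z P ∩ Z Q) = Z P ∩ Z Q := by
    ext g
    simp only [mem_filter, and_iff_right_iff_imp]
    exact fun h => hG P hP (mem_inter.1 h).1
  rw [h2]

/-- The larger sieve, weighted by the degrees. -/
theorem sieve {Ω ι : Type*} [DecidableEq Ω] (S : Finset Ω) (Q : Finset ι) {Γ : ι → Type*}
    [∀ i, DecidableEq (Γ i)] (T : ι → Finset Ω) (hT : ∀ i ∈ Q, T i ⊆ S) (Z : ∀ i, Ω → Finset (Γ i))
    (G : ∀ i, Finset (Γ i)) (D : Ω → ℕ) (hZ : ∀ i ∈ Q, ∀ P ∈ T i, (Z i P).card ≤ D P)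
    (hG : ∀ i ∈ Q, ∀ P ∈ T i, Z i P ⊆ G i)
    (l x : ι → ℝ) (hl : ∀ i ∈ Q, 0 ≤ l i) (hx : ∀ i ∈ Q, 0 < x i) {α B γ : ℝ} (hα : 0 < α) (hB : 0 ≤ B)
    (hγ : 0 ≤ γ)
    (hGα : ∀ i ∈ Q, ((G i).card : ℝ) ≤ α * x i)
    (hpair : ∀ P ∈ S, ∀ P' ∈ S, P ≠ P' →
      ∑ i ∈ Q with P ∈ T i ∧ P' ∈ T i, l i * ((Z i P ∩ Z i P').card : ℝ) ≤ D P * D P' * B)
    (hgood : ∀ P ∈ S, γ * D P ≤ ∑ i ∈ Q with P ∈ T i, l i / x i * ((Z i P).card : ℝ)) :
    (γ * ∑ P ∈ S, (D P : ℝ)) ^ 2 ≤ α * (∑ i ∈ Q, l i / x i) *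
      ((∑ P ∈ S, (D P : ℝ)) ^ 2 * B + (∑ P ∈ S, (D P : ℝ)) * ∑ i ∈ Q, l i) := by
  -- the sum over the primes
  have h1 : ∀ i ∈ Q, l i / x i * (∑ P ∈ T i, ((Z i P).card : ℝ)) ^ 2 ≤
      α * (l i * ∑ P ∈ T i, ∑ P' ∈ T i, ((Z i P ∩ Z i P').card : ℝ)) := by
    intro i hi
    have h2 := cs_one (T i) (G i) (Z i) (hG i hi)
    have h3 : 0 ≤ ∑ P ∈ T i, ∑ P' ∈ T i, ((Z i P ∩ Z i P').card : ℝ) :=
      Finset.sum_nonneg fun _ _ => Finset.sum_nonneg fun _ _ => by positivity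
    have hli := hl i hi
    have hxi := hx i hi
    calc l i / x i * (∑ P ∈ T i, ((Z i P).card : ℝ)) ^ 2
        ≤ l i / x i * ((α * x i) * ∑ P ∈ T i, ∑ P' ∈ T i, ((Z i P ∩ Z i P').card : ℝ)) := by
          refine mul_le_mul_of_nonneg_left (h2.trans ?_) (div_nonneg hli hxi.le)
          exact mul_le_mul_of_nonneg_right (hGα i hi) h3
      _ = _ := by field_simp
  have h4 : ∑ i ∈ Q, l i * ∑ P ∈ T i, ∑ P' ∈ T i, ((Z i P ∩ Z i P').card : ℝ) =
      ∑ P ∈ S, ∑ P' ∈ S, (∑ i ∈ Q with P ∈ T i ∧ P' ∈ T i, l i * ((Z i P ∩ Z i P').card : ℝ)) := by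
    have h5 : ∀ i ∈ Q, l i * ∑ P ∈ T i, ∑ P' ∈ T i, ((Z i P ∩ Z i P').card : ℝ) =
        ∑ P ∈ S, ∑ P' ∈ S, if P ∈ T i ∧ P' ∈ T i then l i * ((Z i P ∩ Z i P').card : ℝ) else 0 := by
      intro i hi
      rw [mul_sum]
      have h6 : ∀ P, (∑ P' ∈ S, if P ∈ T i ∧ P' ∈ T i then l i * ((Z i P ∩ Z i P').card : ℝ) else 0) =
          if P ∈ T i then ∑ P' ∈ T i, l i * ((Z i P ∩ Z i P').card : ℝ) else 0 := by
        intro P
        by_cases h : P ∈ T i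
        · simp only [h, true_and, if_true]
          rw [← Finset.sum_filter]
          refine Finset.sum_congr ?_ fun _ _ => rfl
          ext P'
          simp only [mem_filter, and_iff_right_iff_imp]
          exact fun h => hT i hi h
        · simp [h]
      simp only [h6]
      rw [← Finset.sum_filter]
      have h7 : S.filter (fun P => P ∈ T i) = T i := by
        ext P
        simp only [mem_filter, and_iff_right_iff_imp]
        exact fun h => hT i hi h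
      rw [h7]
      refine Finset.sum_congr rfl fun P _ => ?_
      rw [mul_sum]
    rw [Finset.sum_congr rfl h5, Finset.sum_comm]
    refine Finset.sum_congr rfl fun P _ => ?_
    rw [Finset.sum_comm]
    refine Finset.sum_congr rfl fun P' _ => ?_
    rw [← Finset.sum_filter]
  have hTh : 0 ≤ ∑ i ∈ Q, l i := Finset.sum_nonneg hl
  have h8 : ∑ P ∈ S, ∑ P' ∈ S, (∑ i ∈ Q with P ∈ T i ∧ P' ∈ T i, l i * ((Z i P ∩ Z i P').card : ℝ))
      ≤ (∑ P ∈ S, (D P : ℝ)) ^ 2 * B + (∑ P ∈ S, (D P : ℝ)) * ∑ i ∈ Q, l i := by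
    have h9 : ∀ P ∈ S, ∑ P' ∈ S, (∑ i ∈ Q with P ∈ T i ∧ P' ∈ T i, l i * ((Z i P ∩ Z i P').card : ℝ))
        ≤ D P * (∑ P' ∈ S, (D P' : ℝ)) * B + D P * ∑ i ∈ Q, l i := by
      intro P hP
      have h10 : ∀ P' ∈ S, (∑ i ∈ Q with P ∈ T i ∧ P' ∈ T i, l i * ((Z i P ∩ Z i P').card : ℝ))
          ≤ D P * D P' * B + if P' = P then D P * ∑ i ∈ Q, l i else 0 := by
        intro P' hP'
        by_cases h : P' = P
        · subst h
          rw [if_pos rfl]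
          have h11 : (∑ i ∈ Q with P' ∈ T i ∧ P' ∈ T i, l i * ((Z i P' ∩ Z i P').card : ℝ)) ≤
              (D P' : ℝ) * ∑ i ∈ Q, l i := by
            rw [mul_sum]
            refine (Finset.sum_le_sum (g := fun i => (D P' : ℝ) * l i) ?_).trans
              (Finset.sum_le_sum_of_subset_of_nonneg (filter_subset _ _) fun i hi _ =>
                mul_nonneg (Nat.cast_nonneg _) (hl i hi))
            intro i hi
            rw [mem_filter] at hi
            rw [inter_self, mul_comm]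
            refine mul_le_mul_of_nonneg_right ?_ (hl i hi.1)
            exact_mod_cast hZ i hi.1 P' hi.2.1
          have : (0 : ℝ) ≤ D P' * D P' * B := by positivity
          linarith
        · rw [if_neg h, add_zero]
          exact hpair P hP P' hP' (fun h' => h h'.symm)
      refine (Finset.sum_le_sum h10).trans ?_
      rw [Finset.sum_add_distrib, Finset.sum_ite_eq' S P, if_pos hP]
      refine le_of_eq ?_
      congr 1
      rw [mul_sum, sum_mul]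
    refine (Finset.sum_le_sum h9).trans (le_of_eq ?_)
    rw [Finset.sum_add_distrib, ← Finset.sum_mul, ← Finset.sum_mul, ← Finset.sum_mul]
    ring
  have h13 : ∑ i ∈ Q, l i / x i * (∑ P ∈ T i, ((Z i P).card : ℝ)) ^ 2 ≤
      α * ((∑ P ∈ S, (D P : ℝ)) ^ 2 * B + (∑ P ∈ S, (D P : ℝ)) * ∑ i ∈ Q, l i) := by
    refine (Finset.sum_le_sum h1).trans ?_
    rw [← mul_sum, h4]
    exact mul_le_mul_of_nonneg_left h8 hα.le
  -- Cauchy-Schwarz over the primes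
  have h14 : (∑ i ∈ Q, l i / x i * (∑ P ∈ T i, ((Z i P).card : ℝ))) ^ 2 ≤
      (∑ i ∈ Q, l i / x i) * ∑ i ∈ Q, l i / x i * (∑ P ∈ T i, ((Z i P).card : ℝ)) ^ 2 := by
    refine Finset.sum_sq_le_sum_mul_sum_of_sq_le_mul Q (fun i hi => ?_) (fun i hi => ?_) fun i hi => ?_
    · exact div_nonneg (hl i hi) (hx i hi).le
    · exact mul_nonneg (div_nonneg (hl i hi) (hx i hi).le) (sq_nonneg _)
    · exact le_of_eq (by ring)
  have h15 : γ * ∑ P ∈ S, (D P : ℝ) ≤ ∑ i ∈ Q, l i / x i * (∑ P ∈ T i, ((Z i P).card : ℝ)) := by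
    have h16 : ∑ i ∈ Q, l i / x i * (∑ P ∈ T i, ((Z i P).card : ℝ)) =
        ∑ P ∈ S, ∑ i ∈ Q with P ∈ T i, l i / x i * ((Z i P).card : ℝ) := by
      simp only [Finset.sum_filter]
      rw [Finset.sum_comm]
      refine Finset.sum_congr rfl fun i hi => ?_
      have h7 : S.filter (fun P => P ∈ T i) = T i := by
        ext P
        simp only [mem_filter, and_iff_right_iff_imp]
        exact fun h => hT i hi h
      rw [← Finset.sum_filter, h7, mul_sum]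
    rw [h16, mul_sum]
    exact Finset.sum_le_sum hgood
  have h17 : 0 ≤ ∑ i ∈ Q, l i / x i := Finset.sum_nonneg fun i hi => div_nonneg (hl i hi) (hx i hi).le
  have h18 : 0 ≤ ∑ P ∈ S, (D P : ℝ) := Finset.sum_nonneg fun _ _ => Nat.cast_nonneg _
  calc (γ * ∑ P ∈ S, (D P : ℝ)) ^ 2 ≤ (∑ i ∈ Q, l i / x i * (∑ P ∈ T i, ((Z i P).card : ℝ))) ^ 2 := by
        exact pow_le_pow_left₀ (by positivity) h15 2
    _ ≤ (∑ i ∈ Q, l i / x i) * ∑ i ∈ Q, l i / x i * (∑ P ∈ T i, ((Z i P).card : ℝ)) ^ 2 := h14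
    _ ≤ (∑ i ∈ Q, l i / x i) * (α * ((∑ P ∈ S, (D P : ℝ)) ^ 2 * B + (∑ P ∈ S, (D P : ℝ)) * ∑ i ∈ Q, l i)) :=
        mul_le_mul_of_nonneg_left h13 h17
    _ = _ := by ring

end Pool.Agent.H446.AP2
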