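import Pool.Agent.H446.AP.Core
import Pool.Agent.H446.AP2.CombW

/-!
# The larger sieve for algebraic numbers, counted with their conjugates
-/

set_option autoImplicit false

namespace Pool.Agent.H446.AP2

open Polynomial Finset Pool.Agent.H446.AP

/-- The number of the roots of the reduction. -/
noncomputable def rc (p : ℕ) (P : ℤ[X]) : ℕ := if h : p.Prime then (@rts p ⟨h⟩ P).card else 0

lemma rc_le (p : ℕ) (P : ℤ[X]) : rc p P ≤ P.natDegree := by
  unfold rc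
  split_ifs with h
  · have : Fact p.Prime := ⟨h⟩
    exact card_rts_le P
  · exact Nat.zero_le _

lemma pow_rc_dvd {P : ℤ[X]} (hP : Orb P) {p : ℕ} (hp : p.Prime) :
    (p : ℤ) ^ (P.natDegree - rc p P) ∣ rd P := by
  have : Fact p.Prime := ⟨hp⟩
  have h := pow_dvd_rd (p := p) hP
  unfold rc
  rw [dif_pos hp]
  exact h

/-- The primes in `(y, x]`. -/
noncomputable def prs (y x : ℝ) : Finset ℕ := (pr x).filter fun p : ℕ => y < p

open Classical in
/-- **The larger sieve for algebraic numbers.** -/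
theorem core {A : Fam} {α : ℝ} {N₀ : ℕ} (hα : 0 < α) (hA : Cls A α N₀) {ℓ y x γ : ℝ} (hℓ : 0 ≤ ℓ) (hx : 1 ≤ x)
    (hγ : 0 ≤ γ) (S : Finset ℤ[X]) (hS : ∀ P ∈ S, Orb P ∧ Real.log (mm P) ≤ P.natDegree * ℓ)
    (hgood : ∀ P ∈ S, γ * P.natDegree ≤
      ∑ p ∈ (prs y x).filter (fun p => N₀ < p ∧ ¬ Bad A P p), Real.log p / p * rc p P) :
    (γ * ∑ P ∈ S, (P.natDegree : ℝ)) ^ 2 ≤ α * (∑ p ∈ prs y x, Real.log p / p) *
      ((∑ P ∈ S, (P.natDegree : ℝ)) ^ 2 * (2 * ℓ + Real.log 2) + (∑ P ∈ S, (P.natDegree : ℝ)) * (2 * x)) := by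
  have hl2 : 0 < Real.log 2 := Real.log_pos (by norm_num)
  let Q₀ : Finset ℕ := (prs y x).filter fun p => N₀ < p
  have hQ₀ : ∀ p ∈ Q₀, p.Prime := fun p hp =>
    ((mem_pr (by linarith)).1 (mem_filter.1 (mem_filter.1 hp).1).1).1
  let Q : Finset Nat.Primes := Q₀.subtype Nat.Prime
  have hsum : ∀ (f : ℕ → ℝ) (R : ℕ → Prop) [DecidablePred R],
      ∑ i ∈ Q.filter (fun i : Nat.Primes => R i), f i = ∑ p ∈ Q₀.filter R, f p := by
    intro f R _
    rw [Finset.sum_filter, Finset.sum_filter]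
    exact Finset.sum_subtype_of_mem (fun p => if R p then f p else 0) hQ₀
  have hsum' : ∀ f : ℕ → ℝ, ∑ i ∈ Q, f i = ∑ p ∈ Q₀, f p := fun f => Finset.sum_subtype_of_mem f hQ₀
  have hQmem : ∀ i ∈ Q, (i : ℕ) ∈ Q₀ := fun i hi => Finset.mem_subtype.1 hi
  let T : Nat.Primes → Finset ℤ[X] := fun i => S.filter fun P => ¬ Bad A P i
  let Z : ∀ i : Nat.Primes, ℤ[X] → Finset (AlgebraicClosure (ZMod (i : ℕ))) := fun i P => rts i P
  let G : ∀ i : Nat.Primes, Finset (AlgebraicClosure (ZMod (i : ℕ))) := fun i => (T i).biUnion (Z i)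
  have hrc : ∀ (i : Nat.Primes) (P : ℤ[X]), (Z i P).card = rc i P := by
    intro i P
    unfold rc
    rw [dif_pos i.2]
  have key := sieve S Q (Γ := fun i : Nat.Primes => AlgebraicClosure (ZMod (i : ℕ))) T
    (fun i _ => filter_subset _ _) Z G (fun P => P.natDegree)
    (fun i _ P _ => card_rts_le P)
    (fun i _ P hP => Finset.subset_biUnion_of_mem (Z i) hP)
    (fun i => Real.log (i : ℕ)) (fun i => ((i : ℕ) : ℝ)) (fun i _ => logp_nonneg _)
    (fun i _ => by exact_mod_cast i.2.pos) hα (B := 2 * ℓ + Real.log 2) (by linarith) hγ ?_ ?_ ?_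
  · refine key.trans ?_
    have h1 : ∑ i ∈ Q, Real.log (i : ℕ) / ((i : ℕ) : ℝ) ≤ ∑ p ∈ prs y x, Real.log p / p := by
      rw [hsum' fun p => Real.log p / p]
      exact Finset.sum_le_sum_of_subset_of_nonneg (filter_subset _ _) fun p _ _ =>
        div_nonneg (logp_nonneg p) (Nat.cast_nonneg p)
    have h2 : ∑ i ∈ Q, Real.log (i : ℕ) ≤ 2 * x := by
      rw [hsum' fun p => Real.log p]
      refine (Finset.sum_le_sum_of_subset_of_nonneg ((filter_subset _ _).trans (filter_subset _ _)) fun p _ _ =>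
        logp_nonneg p).trans (theta_le (by linarith))
    have h3 : 0 ≤ ∑ i ∈ Q, Real.log (i : ℕ) := Finset.sum_nonneg fun _ _ => logp_nonneg _
    have h4 : 0 ≤ ∑ i ∈ Q, Real.log (i : ℕ) / ((i : ℕ) : ℝ) := Finset.sum_nonneg fun _ _ =>
      div_nonneg (logp_nonneg _) (Nat.cast_nonneg _)
    have h5 : 0 ≤ ∑ p ∈ prs y x, Real.log p / p := h4.trans h1
    have h6 : 0 ≤ ∑ P ∈ S, (P.natDegree : ℝ) := Finset.sum_nonneg fun _ _ => Nat.cast_nonneg _
    refine mul_le_mul (mul_le_mul_of_nonneg_left h1 hα.le) ?_ ?_ (mul_nonneg hα.le h5)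
    · exact add_le_add le_rfl (mul_le_mul_of_nonneg_left h2 h6)
    · exact add_nonneg (mul_nonneg (sq_nonneg _) (by linarith)) (mul_nonneg h6 h3)
  · -- the number of residues
    intro i hi
    refine hA i (mem_filter.1 (hQmem i hi)).2 (G i) ?_
    intro z hz
    obtain ⟨P, hP, hzP⟩ := Finset.mem_biUnion.1 hz
    have hP' := mem_filter.1 hP
    by_contra hcon
    exact hP'.2 ⟨primesFact i, z, (mem_rts (hS P hP'.1).1).1 hzP, hcon⟩
  · -- pairs
    intro P hP P' hP' hne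
    have hO := (hS P hP).1
    have hO' := (hS P' hP').1
    have h1 := log_resultant_le hO hO' hne (hS P hP).2 (hS P' hP').2
    let r : ℕ → ℕ := fun p => if h : p.Prime then (@rts p ⟨h⟩ P ∩ @rts p ⟨h⟩ P').card else 0
    have h2 := sum_log_le Q₀ hQ₀ r _ (resultant_ne_zero_of_ne hO hO' hne) ?_
    · refine le_trans ?_ (h2.trans h1)
      have h3 : ∑ i ∈ Q with P ∈ T i ∧ P' ∈ T i, Real.log (i : ℕ) * ((Z i P ∩ Z i P').card : ℝ) ≤
          ∑ i ∈ Q, Real.log (i : ℕ) * ((Z i P ∩ Z i P').card : ℝ) :=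
        Finset.sum_le_sum_of_subset_of_nonneg (filter_subset _ _) fun i _ _ =>
          mul_nonneg (logp_nonneg _) (Nat.cast_nonneg _)
      refine h3.trans (le_of_eq ?_)
      rw [← hsum' fun p => Real.log p * r p]
      refine Finset.sum_congr rfl fun i _ => ?_
      simp only [r, dif_pos i.2, Z]
    · intro p hp
      have hpp := hQ₀ p hp
      simp only [r, dif_pos hpp]
      have : Fact p.Prime := ⟨hpp⟩
      refine pow_card_dvd_resultant P P' (Or.inl (map_ne_zero_of_primitive hO.primitive p)) _ ?_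
      intro z hz
      rw [Finset.mem_inter] at hz
      exact ⟨(mem_rts hO).1 hz.1, (mem_rts hO').1 hz.2⟩
  · -- good primes
    intro P hP
    refine (hgood P hP).trans (le_of_eq ?_)
    have h1 : ∑ i ∈ Q with P ∈ T i, Real.log (i : ℕ) / ((i : ℕ) : ℝ) * ((Z i P).card : ℝ) =
        ∑ i ∈ Q.filter (fun i : Nat.Primes => ¬ Bad A P (i : ℕ)),
          Real.log (i : ℕ) / ((i : ℕ) : ℝ) * rc (i : ℕ) P := by
      refine Finset.sum_congr ?_ fun i _ => by rw [hrc]
      ext i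
      simp only [T, mem_filter]
      exact ⟨fun h => ⟨h.1, h.2.2⟩, fun h => ⟨h.1, hP, h.2⟩⟩
    rw [h1, hsum (fun p => Real.log p / p * rc p P) (fun p => ¬ Bad A P p)]
    refine Finset.sum_congr ?_ fun _ _ => rfl
    ext p
    simp only [Q₀, mem_filter]
    tauto

/-- The sum of the defects. -/
lemma sum_defect_le {P : ℤ[X]} (hP : Orb P) {ℓ : ℝ} (hℓ : Real.log (mm P) ≤ P.natDegree * ℓ) (hℓ0 : 0 ≤ ℓ)
    (Q : Finset ℕ) (hQ : ∀ p ∈ Q, p.Prime) :
    ∑ p ∈ Q, Real.log p * ((P.natDegree : ℝ) - rc p P) ≤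
      2 * P.natDegree * Real.log P.natDegree + 2 * (P.natDegree : ℝ) ^ 2 * ℓ := by
  have h1 := sum_log_le Q hQ (fun p => P.natDegree - rc p P) (rd P) (resultant_deriv_ne_zero hP)
    (fun p hp => pow_rc_dvd hP (hQ p hp))
  have h2 : ∑ p ∈ Q, Real.log p * ((P.natDegree : ℝ) - rc p P) =
      ∑ p ∈ Q, Real.log p * ((P.natDegree - rc p P : ℕ) : ℝ) := by
    refine Finset.sum_congr rfl fun p _ => ?_
    rw [Nat.cast_sub (rc_le p P)]
  rw [h2]
  exact h1.trans (log_resultant_deriv_le hP hℓ hℓ0)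

/-- The good primes larger than the degree. -/
lemma sum_good_ge {P : ℤ[X]} (hP : Orb P) {ℓ : ℝ} (hℓ : Real.log (mm P) ≤ P.natDegree * ℓ) (hℓ0 : 0 ≤ ℓ)
    {y : ℝ} (hy0 : 0 < y) (hy : (P.natDegree : ℝ) * (1 + ℓ) ≤ y) (Q : Finset ℕ) (hQ : ∀ p ∈ Q, p.Prime ∧ y < p) :
    (∑ p ∈ Q, Real.log p / p - 2) * P.natDegree ≤ ∑ p ∈ Q, Real.log p / p * rc p P := by
  have hD1 : (1 : ℝ) ≤ P.natDegree := by exact_mod_cast hP.2.1
  have h1 := sum_defect_le hP hℓ hℓ0 Q fun p hp => (hQ p hp).1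
  have h2 : ∑ p ∈ Q, Real.log p / p * ((P.natDegree : ℝ) - rc p P) ≤
      (∑ p ∈ Q, Real.log p * ((P.natDegree : ℝ) - rc p P)) / y := by
    rw [Finset.sum_div]
    refine Finset.sum_le_sum fun p hp => ?_
    have h3 : (0 : ℝ) ≤ (P.natDegree : ℝ) - rc p P := by
      have : (rc p P : ℝ) ≤ P.natDegree := by exact_mod_cast rc_le p P
      linarith
    rw [div_mul_eq_mul_div]
    exact div_le_div_of_nonneg_left (mul_nonneg (logp_nonneg p) h3) hy0 (hQ p hp).2.le
  have h3 : (∑ p ∈ Q, Real.log p * ((P.natDegree : ℝ) - rc p P)) / y ≤ 2 * P.natDegree := by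
    rw [div_le_iff₀ hy0]
    refine h1.trans ?_
    have h4 : Real.log (P.natDegree : ℝ) ≤ P.natDegree := by
      have := Real.log_le_sub_one_of_pos (by linarith : (0 : ℝ) < P.natDegree)
      linarith
    have h5 : 2 * (P.natDegree : ℝ) * (P.natDegree * (1 + ℓ)) ≤ 2 * P.natDegree * y := by gcongr
    have h6 : 2 * (P.natDegree : ℝ) * Real.log P.natDegree ≤ 2 * (P.natDegree : ℝ) * P.natDegree := by gcongr
    nlinarith
  have h4 : ∑ p ∈ Q, Real.log p / p * ((P.natDegree : ℝ) - rc p P) =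
      (∑ p ∈ Q, Real.log p / p) * P.natDegree - ∑ p ∈ Q, Real.log p / p * rc p P := by
    rw [Finset.sum_mul, ← Finset.sum_sub_distrib]
    exact Finset.sum_congr rfl fun p _ => by ring
  linarith

end Pool.Agent.H446.AP2
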