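import Pool.Agent.H446.AP2.CoreW

/-!
# Algebraic numbers with reductions in small sets: a count which is uniform in the degree
-/

set_option autoImplicit false
set_option maxHeartbeats 1000000

namespace Pool.Agent.H446.AP2

open Polynomial Finset Pool.Agent.H446.AP

open Classical in
/-- The sum of `log p / p` over the bad primes in `(y, x]`. -/
noncomputable def badSum (A : Fam) (N₀ : ℕ) (P : ℤ[X]) (y x : ℝ) : ℝ :=
  ∑ p ∈ (prs y x).filter (fun p => N₀ < p ∧ Bad A P p), Real.log p / p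

lemma sum_prs {c : ℝ} (hc : ∀ x : ℝ, 1 ≤ x → Real.log x - c ≤ ∑ p ∈ pr x, Real.log p / p ∧
    ∑ p ∈ pr x, Real.log p / p ≤ Real.log x + c) {y x : ℝ} (hy : 1 ≤ y) (hyx : y ≤ x) :
    Real.log (x / y) - 2 * c ≤ ∑ p ∈ prs y x, Real.log p / p ∧
      ∑ p ∈ prs y x, Real.log p / p ≤ Real.log (x / y) + 2 * c := by
  have h1 : ∑ p ∈ pr x, Real.log p / p = ∑ p ∈ pr y, Real.log p / p + ∑ p ∈ prs y x, Real.log p / p := by
    rw [prs, ← Finset.sum_filter_add_sum_filter_not (pr x) (fun p : ℕ => (p : ℝ) ≤ y)]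
    congr 1
    · refine Finset.sum_congr ?_ fun _ _ => rfl
      ext p
      rw [mem_filter, mem_pr (by linarith), mem_pr (by linarith)]
      exact ⟨fun h => ⟨h.1.1, h.2⟩, fun h => ⟨⟨h.1, h.2.trans hyx⟩, h.2⟩⟩
    · refine Finset.sum_congr ?_ fun _ _ => rfl
      ext p
      rw [mem_filter, mem_filter, not_le]
  have h2 := hc x (hy.trans hyx)
  have h3 := hc y hy
  rw [Real.log_div (by linarith) (by linarith)]
  constructor <;> linarith [h2.1, h2.2, h3.1, h3.2]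

open Classical in
lemma good_ge {A : Fam} {N₀ : ℕ} {c : ℝ}
    (hc : ∀ x : ℝ, 1 ≤ x → Real.log x - c ≤ ∑ p ∈ pr x, Real.log p / p ∧ ∑ p ∈ pr x, Real.log p / p ≤ Real.log x + c)
    (P : ℤ[X]) {y x : ℝ} (hy : 1 ≤ y) (hyx : y ≤ x) :
    Real.log (x / y) - badSum A N₀ P y x - (3 * c + Real.log (N₀ + 1)) ≤
      ∑ p ∈ (prs y x).filter (fun p => N₀ < p ∧ ¬ Bad A P p), Real.log p / p := by
  have h1 : ∑ p ∈ prs y x, Real.log p / p ≤ ∑ p ∈ (prs y x).filter (fun p => p ≤ N₀), Real.log p / p +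
      badSum A N₀ P y x + ∑ p ∈ (prs y x).filter (fun p => N₀ < p ∧ ¬ Bad A P p), Real.log p / p := by
    rw [badSum, Finset.sum_filter, Finset.sum_filter, Finset.sum_filter,
      ← Finset.sum_add_distrib, ← Finset.sum_add_distrib]
    refine Finset.sum_le_sum fun p _ => ?_
    have h0 : 0 ≤ Real.log p / p := div_nonneg (logp_nonneg p) (Nat.cast_nonneg p)
    by_cases h2 : p ≤ N₀
    · rw [if_pos h2, if_neg (by omega), if_neg (by omega)]
      linarith
    · rw [if_neg h2]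
      push Not at h2
      by_cases h3 : Bad A P p <;> simp [h2, h3]
  have h2 : ∑ p ∈ (prs y x).filter (fun p => p ≤ N₀), Real.log p / p ≤ Real.log (N₀ + 1) + c := by
    have h3 := (hc (N₀ + 1) (by linarith [Nat.cast_nonneg (α := ℝ) N₀])).2
    refine le_trans (Finset.sum_le_sum_of_subset_of_nonneg ?_ fun p _ _ =>
      div_nonneg (logp_nonneg p) (Nat.cast_nonneg p)) h3
    intro p hp
    rw [mem_filter, prs, mem_filter] at hp
    refine (mem_pr (by positivity)).2 ⟨((mem_pr (by linarith)).1 hp.1.1).1, ?_⟩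
    have : (p : ℝ) ≤ N₀ := by exact_mod_cast hp.2
    linarith
  have h5 := (sum_prs hc hy hyx).1
  linarith

/-- **Algebraic numbers with reductions in small sets.** -/
theorem count {α β : ℝ} (hα : 0 < α) (hβ : 0 < β) (M : ℝ) (N₀ : ℕ) :
    ∃ C : ℝ, 1 ≤ C ∧ ∀ A : Fam, Cls A α N₀ → ∀ D H : ℝ, 1 ≤ D → 0 ≤ H → ∀ S : Finset ℤ[X],
      (∀ P ∈ S, Orb P ∧ (P.natDegree : ℝ) ≤ D ∧ Real.log (mm P) ≤ P.natDegree * H ∧
        badSum A N₀ P (D * (1 + H)) (C * (D * (1 + H)) * Real.exp (2 * α * H / β ^ 2)) ≤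
          (1 - β) * Real.log (C * Real.exp (2 * α * H / β ^ 2)) + M) →
      ∑ P ∈ S, (P.natDegree : ℝ) ≤ C * (D * (1 + H)) * Real.exp (2 * α * H / β ^ 2) := by
  classical
  obtain ⟨c, hc0, hc⟩ := mertens
  have hl2 : 0 < Real.log 2 := Real.log_pos (by norm_num)
  obtain ⟨M₂, hM₂⟩ : ∃ M₂, M₂ = 3 * c + Real.log (N₀ + 1) + Real.log 2 + |M| + 2 := ⟨_, rfl⟩
  have hN : 0 ≤ Real.log ((N₀ : ℝ) + 1) := Real.log_nonneg (by linarith [Nat.cast_nonneg (α := ℝ) N₀])
  have hM₂0 : 0 ≤ M₂ := by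
    have := abs_nonneg M
    rw [hM₂]
    positivity
  obtain ⟨K, hK⟩ : ∃ K, K = 2 * c + 2 * M₂ / β := ⟨_, rfl⟩
  have hK0 : 0 ≤ K := by
    rw [hK]
    positivity
  have hKβ : β * K = 2 * c * β + 2 * M₂ := by
    rw [hK]
    field_simp
  refine ⟨2 * Real.exp (K + α * (Real.log 2 + 1) / β ^ 2), ?_, ?_⟩
  · have : 1 ≤ Real.exp (K + α * (Real.log 2 + 1) / β ^ 2) := Real.one_le_exp (by positivity)
    linarith
  intro A hA D H hD hH S hS
  set y : ℝ := D * (1 + H) with hy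
  have hy1 : 1 ≤ y := by
    rw [hy]
    nlinarith
  obtain ⟨a, ha⟩ : ∃ a, a = α * (2 * H + Real.log 2 + 1) := ⟨_, rfl⟩
  have ha0 : 0 < a := by
    rw [ha]
    positivity
  obtain ⟨Λ, hΛ⟩ : ∃ Λ, Λ = K + a / β ^ 2 := ⟨_, rfl⟩
  have hΛ0 : 0 < Λ := by
    rw [hΛ]
    positivity
  have he : Real.exp (K + α * (Real.log 2 + 1) / β ^ 2) * Real.exp (2 * α * H / β ^ 2) = Real.exp Λ := by
    rw [← Real.exp_add, hΛ, ha]
    congr 1
    field_simp
    ring
  obtain ⟨x, hx⟩ : ∃ x, x = y * Real.exp Λ := ⟨_, rfl⟩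
  have hX : 2 * Real.exp (K + α * (Real.log 2 + 1) / β ^ 2) * y * Real.exp (2 * α * H / β ^ 2) = 2 * x := by
    rw [hx, ← he]
    ring
  have hX' : 2 * Real.exp (K + α * (Real.log 2 + 1) / β ^ 2) * Real.exp (2 * α * H / β ^ 2) =
      2 * Real.exp Λ := by
    rw [← he]
    ring
  rw [hX]
  simp only [hX, hX'] at hS
  have hyx : y ≤ x := by
    rw [hx]
    have := Real.one_le_exp hΛ0.le
    nlinarith
  have hx1 : 1 ≤ x := hy1.trans hyx
  have hlogxy : Real.log (x / y) = Λ := by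
    rw [hx, mul_div_assoc, mul_comm, div_mul_cancel₀ _ (by linarith : y ≠ 0), Real.log_exp]
  have hlog2 : Real.log (2 * Real.exp Λ) = Real.log 2 + Λ := by
    rw [Real.log_mul (by norm_num) (Real.exp_pos _).ne', Real.log_exp]
  have hγ0 : 0 ≤ β * Λ - M₂ := by
    have h1 : β * K ≤ β * Λ := by
      refine mul_le_mul_of_nonneg_left ?_ hβ.le
      rw [hΛ]
      have : 0 ≤ a / β ^ 2 := by positivity
      linarith
    have h2 : 0 ≤ 2 * c * β := by positivity
    linarith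
  have key := core (y := y) hα hA hH hx1 hγ0 S (fun P hP => ⟨(hS P hP).1, (hS P hP).2.2.1⟩) ?_
  · set W : ℝ := ∑ P ∈ S, (P.natDegree : ℝ) with hW
    have hW0 : 0 ≤ W := Finset.sum_nonneg fun _ _ => Nat.cast_nonneg _
    have h1 := (sum_prs hc hy1 hyx).2
    rw [hlogxy] at h1
    have h0 : 0 ≤ ∑ p ∈ prs y x, Real.log p / p :=
      Finset.sum_nonneg fun p _ => div_nonneg (logp_nonneg p) (Nat.cast_nonneg p)
    have h2 : ((β * Λ - M₂) * W) ^ 2 ≤ α * (Λ + 2 * c) * (W ^ 2 * (2 * H + Real.log 2) + W * (2 * x)) := by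
      refine key.trans ?_
      refine mul_le_mul_of_nonneg_right (mul_le_mul_of_nonneg_left h1 hα.le) ?_
      have : 0 ≤ W ^ 2 * (2 * H + Real.log 2) := by positivity
      have : 0 ≤ W * (2 * x) := by positivity
      linarith
    have h3 : a * (Λ + 2 * c) ≤ (β * Λ - M₂) ^ 2 := by
      have e1 : β ^ 2 * Λ = β ^ 2 * K + a := by
        rw [hΛ]
        field_simp
      have e2 : (β * Λ - M₂) ^ 2 = Λ * (β ^ 2 * Λ) - 2 * M₂ * (β * Λ) + M₂ ^ 2 := by ring
      rw [e2, e1]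
      have e3 : β ^ 2 * K = β * (2 * c * β + 2 * M₂) := by
        rw [← hKβ]
        ring
      rw [e3]
      have e4 : a ≤ β ^ 2 * Λ := by
        rw [e1]
        have : 0 ≤ β ^ 2 * K := by positivity
        linarith
      have e5 : a * (2 * c) ≤ β ^ 2 * Λ * (2 * c) := by gcongr
      nlinarith [sq_nonneg M₂]
    have h4 : W ^ 2 * (a * (Λ + 2 * c)) ≤ α * (Λ + 2 * c) * (W ^ 2 * (2 * H + Real.log 2) + W * (2 * x)) := by
      refine le_trans ?_ h2
      rw [mul_pow, mul_comm ((β * Λ - M₂) ^ 2)]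
      exact mul_le_mul_of_nonneg_left h3 (sq_nonneg _)
    have h5 : α * (Λ + 2 * c) * (W * W) ≤ α * (Λ + 2 * c) * (W * (2 * x)) := by
      rw [ha] at h4
      nlinarith
    have h6 : 0 < α * (Λ + 2 * c) := by positivity
    have h7 := le_of_mul_le_mul_left h5 h6
    rcases hW0.eq_or_lt with h8 | h8
    · rw [← h8]
      linarith
    · exact le_of_mul_le_mul_left h7 h8
  · intro P hP
    obtain ⟨h1, h2, h3, h4⟩ := hS P hP
    have h5 := sum_good_ge h1 h3 hH (y := y) (by linarith) (by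
      rw [hy]
      gcongr) ((prs y x).filter (fun p => N₀ < p ∧ ¬ Bad A P p)) (by
      intro p hp
      rw [mem_filter, prs, mem_filter] at hp
      exact ⟨((mem_pr (by linarith)).1 hp.1.1).1, hp.1.2⟩)
    refine le_trans (mul_le_mul_of_nonneg_right ?_ (Nat.cast_nonneg _)) h5
    have h6 := good_ge (A := A) (N₀ := N₀) hc P hy1 hyx
    rw [hlogxy] at h6
    have h7 : badSum A N₀ P y x ≤ badSum A N₀ P y (2 * x) := by
      refine Finset.sum_le_sum_of_subset_of_nonneg ?_ fun p _ _ =>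
        div_nonneg (logp_nonneg p) (Nat.cast_nonneg p)
      intro p hp
      rw [mem_filter, prs, mem_filter, mem_pr (by linarith)] at hp
      rw [mem_filter, prs, mem_filter, mem_pr (by linarith)]
      exact ⟨⟨⟨hp.1.1.1, by linarith [hp.1.1.2]⟩, hp.1.2⟩, hp.2⟩
    rw [hlog2] at h4
    have h8 : (1 - β) * (Real.log 2 + Λ) ≤ Real.log 2 + (1 - β) * Λ := by nlinarith
    have h9 := le_abs_self M
    rw [hM₂]
    nlinarith

end Pool.Agent.H446.AP2
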