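import Pool.Agent.H446.AP.Sharp

/-!
# Coprime pairs of odd numbers
-/

set_option autoImplicit false

namespace Pool.Agent.H446.AP2

open Finset

lemma odd_pairs (N : ℕ) (hN : 1 ≤ N) : (N : ℝ) ^ 2 / 12 ≤
    ((((Icc 1 (2 * N)) ×ˢ (Icc 1 (2 * N))).filter fun x : ℕ × ℕ =>
      Nat.Coprime x.1 x.2 ∧ Odd x.1 ∧ Odd x.2).card : ℝ) := by
  classical
  have h1 := Pool.Agent.H446.AP.coprime_pairs N hN
  set A := ((Icc 1 N) ×ˢ (Icc 1 N)).filter fun x : ℕ × ℕ => Nat.Coprime x.1 x.2 with hA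
  set B := ((Icc 1 (2 * N)) ×ˢ (Icc 1 (2 * N))).filter fun x : ℕ × ℕ =>
      Nat.Coprime x.1 x.2 ∧ Odd x.1 ∧ Odd x.2 with hB
  let φ : ℕ × ℕ → (ℕ × ℕ) × Fin 3 := fun x =>
    if Odd x.1 ∧ Odd x.2 then (x, 0) else if Odd x.1 then ((x.1, x.1 + x.2), 1) else ((x.1 + x.2, x.2), 2)
  have h2 : ∀ x ∈ A, φ x ∈ B ×ˢ (univ : Finset (Fin 3)) := by
    rintro ⟨u, v⟩ hx
    rw [hA, mem_filter, mem_product, mem_Icc, mem_Icc] at hx
    obtain ⟨⟨⟨a1, a2⟩, a3, a4⟩, a5⟩ := hx
    simp only at a1 a2 a3 a4 a5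
    rw [mem_product]
    refine ⟨?_, mem_univ _⟩
    simp only [φ]
    by_cases hu : Odd u
    · by_cases hv : Odd v
      · rw [if_pos ⟨hu, hv⟩, hB, mem_filter, mem_product, mem_Icc, mem_Icc]
        exact ⟨⟨⟨a1, by dsimp only; omega⟩, a3, by dsimp only; omega⟩, a5, hu, hv⟩
      · rw [if_neg (fun h => hv h.2), if_pos hu, hB, mem_filter, mem_product, mem_Icc, mem_Icc]
        refine ⟨⟨⟨a1, by dsimp only; omega⟩, by dsimp only; omega, by dsimp only; omega⟩, ?_, hu, ?_⟩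
        · exact Nat.coprime_self_add_right.2 a5
        · exact hu.add_even (Nat.not_odd_iff_even.1 hv)
    · rw [if_neg (fun h => hu h.1), if_neg hu, hB, mem_filter, mem_product, mem_Icc, mem_Icc]
      have hu' := Nat.not_odd_iff_even.1 hu
      have hv : Odd v := by
        by_contra hv
        have hv' := Nat.not_odd_iff_even.1 hv
        have := Nat.dvd_gcd hu'.two_dvd hv'.two_dvd
        rw [a5] at this
        omega
      refine ⟨⟨⟨by dsimp only; omega, by dsimp only; omega⟩, a3, by dsimp only; omega⟩, ?_, ?_, hv⟩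
      · show Nat.Coprime (u + v) v
        exact Nat.coprime_add_self_left.2 a5
      · exact hu'.add_odd hv
  have h3 : Set.InjOn φ A := by
    rintro ⟨u, v⟩ - ⟨u', v'⟩ - h
    simp only [φ] at h
    split_ifs at h <;> simp only [Prod.mk.injEq] at h <;> (ext <;> simp only <;> omega)
  have h4 := Finset.card_le_card_of_injOn φ h2 h3
  rw [card_product, card_univ, Fintype.card_fin] at h4
  have h5 : (A.card : ℝ) ≤ B.card * 3 := by exact_mod_cast h4
  linarith

end Pool.Agent.H446.AP2
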